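import Pool.Agent.helper86.NF.SpecC

set_option autoImplicit false

open Complex MeasureTheory

namespace Pool.Agent.NF

open Pool.Agent.helper84.DM Pool.Agent.helper78.ED Pool.Agent.DH Pool.Agent.ZD

theorem NONE (h1 : CZH_stmt) (h2 : CZ1_stmt) (h3 : CZ2_stmt) (h4 : CZ3_stmt) : NONE_stmt := by
  intro ε hε
  obtain ⟨ϑ₂, hϑ₂, h3⟩ := h3 ε hε
  obtain ⟨ϑ₃, hϑ₃, h4⟩ := h4 ε hε
  have hϑ : 0 < min (min ϑ₂ ϑ₃) (min ε (1 / 2)) :=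
    lt_min (lt_min hϑ₂ hϑ₃) (lt_min hε (by norm_num))
  have hϑa : min (min ϑ₂ ϑ₃) (min ε (1 / 2)) ≤ ϑ₂ := le_trans (min_le_left _ _) (min_le_left _ _)
  have hϑb : min (min ϑ₂ ϑ₃) (min ε (1 / 2)) ≤ ϑ₃ := le_trans (min_le_left _ _) (min_le_right _ _)
  have hϑε : min (min ϑ₂ ϑ₃) (min ε (1 / 2)) ≤ ε := le_trans (min_le_right _ _) (min_le_left _ _)
  have hϑh : min (min ϑ₂ ϑ₃) (min ε (1 / 2)) ≤ 1 / 2 :=
    le_trans (min_le_right _ _) (min_le_right _ _)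
  generalize min (min ϑ₂ ϑ₃) (min ε (1 / 2)) = ϑ at hϑ hϑa hϑb hϑε hϑh
  refine ⟨ϑ, hϑ, hϑε, hϑh, ?_⟩
  intro δ hδ hδ4
  obtain ⟨κ1, hκ1, hκ1', h1⟩ := h1 ε hε
  obtain ⟨κ2, hκ2, hκ2', h2⟩ := h2 ε δ hε hδ hδ4
  obtain ⟨κ3, hκ3, hκ3', h3⟩ := h3 ϑ hϑ hϑa δ hδ hδ4
  obtain ⟨κ4, hκ4, hκ4', h4⟩ := h4 ϑ hϑ hϑb δ hδ hδ4
  have hk1 : min (min κ1 κ2) (min κ3 κ4) ≤ κ1 := le_trans (min_le_left _ _) (min_le_left _ _)
  have hk2 : min (min κ1 κ2) (min κ3 κ4) ≤ κ2 := le_trans (min_le_left _ _) (min_le_right _ _)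
  have hk3 : min (min κ1 κ2) (min κ3 κ4) ≤ κ3 := le_trans (min_le_right _ _) (min_le_left _ _)
  have hk4 : min (min κ1 κ2) (min κ3 κ4) ≤ κ4 := le_trans (min_le_right _ _) (min_le_right _ _)
  have hk0 : 0 < min (min κ1 κ2) (min κ3 κ4) :=
    lt_min (lt_min hκ1 hκ2) (lt_min hκ3 hκ4)
  generalize min (min κ1 κ2) (min κ3 κ4) = κ at hk1 hk2 hk3 hk4 hk0
  refine ⟨κ, hk0, le_trans hk1 hκ1', ?_⟩
  intro C₁ hC₁
  obtain ⟨CA, TA, hCA, hA⟩ := h1 C₁ δ hC₁ hδ hδ4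
  obtain ⟨CB, TB, hCB, hB⟩ := h2 C₁ hC₁
  obtain ⟨CC, TC, hCC, hCc⟩ := h3 C₁ hC₁
  obtain ⟨CL, TL, hCL, hL⟩ := h4 C₁ hC₁
  refine ⟨CA + CB + CC + CL, max 1 (max (max TA TB) (max TC TL)), by positivity, ?_⟩
  intro T hT σ hσ1 hσ2 N hN1 hN2 a ha W hW hV
  have hT1 : (1 : ℝ) ≤ T := le_trans (le_max_left _ _) hT
  have hT' := le_trans (le_max_right _ _) hT
  have hTA : TA ≤ T := le_trans (le_trans (le_max_left _ _) (le_max_left _ _)) hT'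
  have hTB : TB ≤ T := le_trans (le_trans (le_max_right _ _) (le_max_left _ _)) hT'
  have hTC : TC ≤ T := le_trans (le_trans (le_max_left _ _) (le_max_right _ _)) hT'
  have hTL : TL ≤ T := le_trans (le_trans (le_max_right _ _) (le_max_right _ _)) hT'
  have hT0 : 0 < T := by linarith
  have haκ : ∀ κ' : ℝ, κ ≤ κ' → ∀ n ∈ Finset.Ioc N (2 * N), ‖a n‖ ≤ C₁ * T ^ κ' := by
    intro κ' hκ' n hn
    refine le_trans (ha n hn) (mul_le_mul_of_nonneg_left ?_ hC₁.le)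
    exact Real.rpow_le_rpow_of_exponent_le hT1 hκ'
  have hW0 : Sep 0 T W := by
    refine ⟨hW.1, fun t ht t' ht' hne => le_trans ?_ (hW.2 t ht t' ht' hne)⟩
    exact Real.rpow_le_rpow_of_exponent_le hT1 hϑ.le
  have hX : T ^ (wA σ + ε) ≤ T ^ (wA σ + ε + 4 * δ) :=
    Real.rpow_le_rpow_of_exponent_le hT1 (by linarith)
  have hX1 : 0 < T ^ (wA σ + ε + 4 * δ) := Real.rpow_pos_of_pos hT0 _
  have key : ∀ c : ℝ, 0 ≤ c → c ≤ CA + CB + CC + CL →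
      (W.card : ℝ) ≤ c * T ^ (wA σ + ε + 4 * δ) →
      (W.card : ℝ) ≤ (CA + CB + CC + CL) * T ^ (wA σ + ε + 4 * δ) := by
    intro c _ hc h
    exact le_trans h (mul_le_mul_of_nonneg_right hc hX1.le)
  by_cases c1 : T ^ (1 / 2 : ℝ) ≤ (N : ℝ)
  · refine key CA hCA.le (by linarith) ?_
    exact hA T hTA σ hσ1 hσ2 N c1 hN2 a (haκ κ1 hk1) W hW0 hV
  push Not at c1
  by_cases c2 : σ < 2 / 3
  · refine key CB hCB.le (by linarith) ?_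
    refine le_trans (hB T hTB σ hσ1 c2 N hN1 c1.le a (haκ κ2 hk2) W hW0 hV) ?_
    exact mul_le_mul_of_nonneg_left hX hCB.le
  push Not at c2
  by_cases c3 : σ < 5 / 7
  · refine key CC hCC.le (by linarith) ?_
    refine le_trans (hCc T hTC σ c2 c3 N hN1 c1.le a (haκ κ3 hk3) W hW hV) ?_
    exact mul_le_mul_of_nonneg_left hX hCC.le
  push Not at c3
  · refine key CL hCL.le (by linarith) ?_
    refine le_trans (hL T hTL σ c3 hσ2 N hN1 c1.le a (haκ κ4 hk4) W hW hV) ?_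
    exact mul_le_mul_of_nonneg_left hX hCL.le

end Pool.Agent.NF
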