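import Pool.Agent.helper90.ZD.Assembly
import Pool.Agent.helper15.NF.LWK
import Pool.Agent.helper29.NF.NLD
import Pool.Agent.helper30.NF.NAA
import Pool.Agent.helper30.NF.NLW
import Pool.Agent.helper38.NF.NBE
import Pool.Agent.helper40.NF.CZ1
import Pool.Agent.helper46.NF.NVM
import Pool.Agent.helper61.NF.NPW
import Pool.Agent.helper70.NF.NMV
import Pool.Agent.helper75.NF.CZ2
import Pool.Agent.helper75.NF.CZH
import Pool.Agent.helper76.NF.LVZ
import Pool.Agent.helper86.NF.NALL
import Pool.Agent.helper86.NF.NCOR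
import Pool.Agent.helper86.NF.NFT
import Pool.Agent.helper86.NF.NONE
import Pool.Agent.helper86.NF.NSIG
import Pool.Agent.helper86.NF.NTAY
import Pool.Agent.helper90.NF.NVD
import Pool.Agent.helper98.NF.CZ3
import Pool.Agent.helper98.NF.NVW

/-! # Project nf (MP_4467b5_nt): assembly of part C -/

set_option autoImplicit false

open Complex MeasureTheory

namespace Pool.Agent.NF

open Pool.Agent.helper84.DM Pool.Agent.helper78.ED Pool.Agent.DH Pool.Agent.ZD

/-- Part C: the zero density theorem from the two large values theorems. -/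
theorem nft_of (lvd : LVD_stmt) (lwf : LWF_stmt) : NFT_stmt := by
  have nvm : NVM_stmt := NVM z_mvk
  have nvw : NVW_stmt := NVW (LWK lwf)
  have nvd : NVD_stmt := NVD lvd
  have lvz : LVZ_stmt := LVZ z_ba z_bqf NBE z_be2 z_bs0
  have czh : CZH_stmt := CZH nvm NMV NAA
  have cz1 : CZ1_stmt := CZ1 NPW nvm NMV NAA
  have cz2 : CZ2_stmt := CZ2 NPW nvm NMV NAA nvd NLD
  have cz3 : CZ3_stmt := CZ3 NPW nvm NMV NAA nvw NLW lvz
  have nall : NALL_stmt := NALL (NONE czh cz1 cz2 cz3) z_csep
  have ncor : NCOR_stmt := NCOR (NTAY nall Pool.Agent.DH.TAY) Pool.Agent.DH.det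
    Pool.Agent.DH.two NAA
  exact NFT (NSIG ncor Pool.Agent.DH.cor NAA) NAA

end Pool.Agent.NF
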