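import Pool.Agent.helper86.NF.SpecC
import Pool.Agent.helper71.ED.CR

/-!
# Project nf, module NCOR: from the class one bound to the zero density bound
-/

set_option autoImplicit false

open Complex MeasureTheory

namespace Pool.Agent.NF

open Pool.Agent.helper84.DM Pool.Agent.helper78.ED Pool.Agent.DH Pool.Agent.ZD

theorem NCOR (hB : NTAY_stmt) (hDT : DET_stmt) (hC2 : TWO_stmt) (hA : NAA_stmt) :
    NCOR_stmt := by
  classical
  intro ε hε
  set η : ℝ := min (1 / 64) (ε / 64) with hηd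
  set δ : ℝ := min (1 / 4) (ε / 64) with hδd
  have hη : 0 < η := lt_min (by norm_num) (by linarith)
  have hη0 : η ≤ 1 / 64 := min_le_left _ _
  have hη1 : η ≤ 1 / 8 := by linarith
  have hη2 : η ≤ ε / 64 := min_le_right _ _
  have hδ : 0 < δ := lt_min (by norm_num) (by linarith)
  have hδ1 : δ ≤ 1 / 4 := min_le_left _ _
  have hδ2 : δ ≤ ε / 64 := min_le_right _ _
  obtain ⟨κ, hκ, hκ1, hC6'⟩ := hB (ε / 2) δ (by linarith) hδ hδ1
  obtain ⟨c, C₀, T₁, hC₀, hdet⟩ := hDT δ κ η hδ hδ1 hκ hη hη1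
  obtain ⟨C₂, T₂, hC₂, htwo⟩ := hC2 η (ε / 16) hη hη1 (by linarith)
  set C₁ : ℝ := max C₀ 24 with hC₁d
  have hC₁ : 0 < C₁ := lt_of_lt_of_le (by norm_num) (le_max_right _ _)
  obtain ⟨C₃, T₃, hC₃, hone⟩ := hC6' C₁ hC₁
  have hT4 : ∃ T₄ : ℝ, ∀ T : ℝ, T₄ ≤ T → 2 ≤ T ^ δ := by
    have := (tendsto_rpow_atTop hδ).eventually_ge_atTop 2
    rw [Filter.eventually_atTop] at this
    exact this
  obtain ⟨T₄, hT₄⟩ := hT4
  set L : ℝ := 3 * (8 / ε) with hL
  have hL0 : 0 < L := by positivity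
  refine ⟨L * C₃ + (8 * C₀) ^ 4 * C₂, max (max (max T₁ T₂) (max T₃ T₄)) 3,
    by positivity, ?_⟩
  intro T hT σ hσ hσ1 Z hZ
  have hσ1' : σ ≤ 1 := by linarith
  have hwA : 2 * (1 - σ) ≤ wA σ := hA.2.2.2.1 σ (by linarith) hσ1'
  have hT1 : T₁ ≤ T := le_trans (le_trans (le_max_left _ _) (le_max_left _ _))
    ((le_max_left _ _).trans hT)
  have hT2 : T₂ ≤ T := le_trans (le_trans (le_max_right _ _) (le_max_left _ _))
    ((le_max_left _ _).trans hT)
  have hT3 : T₃ ≤ T := le_trans (le_trans (le_max_left _ _) (le_max_right _ _))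
    ((le_max_left _ _).trans hT)
  have hT4' : T₄ ≤ T := le_trans (le_trans (le_max_right _ _) (le_max_right _ _))
    ((le_max_left _ _).trans hT)
  have h3T : 3 ≤ T := (le_max_right _ _).trans hT
  have hT0 : 0 < T := by linarith
  have hTone : 1 ≤ T := by linarith
  have hTd := hT₄ T hT4'
  have hlog1 : 1 ≤ Real.log T := by
    rw [Real.le_log_iff_exp_le hT0]
    linarith [Real.exp_one_lt_d9]
  obtain ⟨hcb, hdetT⟩ := hdet T hT1
  set N0 : ℕ := ⌊T ^ δ⌋₊ with hN0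
  set Ne : ℕ := ⌊T ^ (1 / 2 + δ)⌋₊ with hNe
  have hN0low : T ^ δ / 2 ≤ (N0 : ℝ) := by
    have := Nat.lt_floor_add_one (T ^ δ)
    rw [← hN0] at this
    linarith
  have hN0pos : 1 ≤ N0 := by
    have h : (0 : ℝ) < (N0 : ℝ) := by linarith
    exact_mod_cast h
  set J : ℕ := ⌊2 * Real.log T⌋₊ + 1 with hJ
  have hJlow : 2 * Real.log T ≤ (J : ℝ) := by
    have := Nat.lt_floor_add_one (2 * Real.log T)
    rw [hJ]
    push_cast
    linarith
  have hJup : (J : ℝ) ≤ 3 * Real.log T := by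
    have := Nat.floor_le (show 0 ≤ 2 * Real.log T by linarith)
    rw [hJ]
    push_cast
    linarith
  have hJpos : (0 : ℝ) < (J : ℝ) := by linarith
  have h2J : T ≤ (2 : ℝ) ^ J := by
    have h1 : (2 : ℝ) ^ J = Real.exp (Real.log 2 * J) := by
      rw [← Real.rpow_natCast, Real.rpow_def_of_pos (by norm_num)]
    rw [h1]
    have h2 : Real.log T ≤ Real.log 2 * J := by
      have h3 : (1 : ℝ) / 2 ≤ Real.log 2 := by linarith [Real.log_two_gt_d9]
      nlinarith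
    calc T = Real.exp (Real.log T) := (Real.exp_log hT0).symm
      _ ≤ _ := Real.exp_le_exp.mpr h2
  have hTp : T ^ (1 / 2 + δ) ≤ T := by
    calc T ^ (1 / 2 + δ) ≤ T ^ (1 : ℝ) :=
          Real.rpow_le_rpow_of_exponent_le hTone (by linarith)
      _ = T := Real.rpow_one T
  have hNeM : Ne ≤ 2 ^ J * N0 := by
    have h1 : (Ne : ℝ) ≤ T ^ (1 / 2 + δ) := Nat.floor_le (by positivity)
    have h2 : (Ne : ℝ) ≤ ((2 ^ J : ℕ) : ℝ) := by
      push_cast
      linarith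
    have h3 : Ne ≤ 2 ^ J := by exact_mod_cast h2
    exact h3.trans (Nat.le_mul_of_pos_right _ hN0pos)
  have hNeT : (Ne : ℝ) ≤ T ^ (1 / 2 + δ) := Nat.floor_le (by positivity)
  set c' : ℕ → ℂ := fun n => if n ≤ Ne then c T n else 0 with hc'
  have hc'b : ∀ n : ℕ, 1 ≤ n → (n : ℝ) ≤ T → ‖c' n‖ ≤ C₁ * T ^ κ := by
    intro n hn hnT
    have hp : 0 ≤ T ^ κ := by positivity
    by_cases h : n ≤ Ne
    · simp only [hc', if_pos h]
      exact (hcb n hn hnT).trans (mul_le_mul_of_nonneg_right (le_max_left _ _) hp)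
    · simp only [hc', if_neg h, norm_zero]
      positivity
  have hsplit : ∀ ρ : ℂ, ∑ n ∈ Finset.Ioc N0 Ne, c T n * (n : ℂ) ^ (-ρ)
      = ∑ j ∈ Finset.range J, ∑ n ∈ Finset.Ioc (2 ^ j * N0) (2 * (2 ^ j * N0)),
        c' n * (n : ℂ) ^ (-ρ) := by
    intro ρ
    rw [← CR_dyadic, CR_cut _ N0 Ne _ hNeM]
    refine Finset.sum_congr rfl fun n _ => ?_
    by_cases h : n ≤ Ne
    · simp [hc', h]
    · simp [hc', h]
  -- the two classes
  set small : ℂ → Prop := fun ρ =>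
    1 / 8 ≤ C₀ * T ^ δ * Real.sqrt T ^ (1 / 2 + η - ρ.re) * Zt η (T / 2) ρ.im with hsmall
  set Z2 : Finset ℂ := Z.filter small with hZ2
  set Z1 : Finset ℂ := Z.filter (fun ρ => ¬ small ρ) with hZ1
  set W : ℕ → Finset ℂ := fun j => Z1.filter (fun ρ => 1 / (C₁ * Real.log T) ≤
    ‖∑ n ∈ Finset.Ioc (2 ^ j * N0) (2 * (2 ^ j * N0)), c' n * (n : ℂ) ^ (-ρ)‖) with hW
  have hcard : (Z.card : ℝ) = Z2.card + Z1.card := by
    rw [hZ2, hZ1]
    exact_mod_cast (Finset.card_filter_add_card_filter_not (s := Z) small).symm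
  have hZ1sub : Z1 ⊆ (Finset.range J).biUnion W := by
    intro ρ hρ
    obtain ⟨hρZ, hns⟩ := Finset.mem_filter.mp hρ
    obtain ⟨hz, hre, him1, him2⟩ := hZ ρ hρZ
    have hd := hdetT ρ hz (by linarith) him1 him2
    have hns' : C₀ * T ^ δ * Real.sqrt T ^ (1 / 2 + η - ρ.re) * Zt η (T / 2) ρ.im < 1 / 8 :=
      not_le.mp hns
    have hmid : 1 / 8 ≤ ‖∑ n ∈ Finset.Ioc N0 Ne, c T n * (n : ℂ) ^ (-ρ)‖ := by linarith
    rw [hsplit] at hmid
    by_contra hcon
    rw [Finset.mem_biUnion] at hcon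
    push Not at hcon
    have hall : ∀ j ∈ Finset.range J,
        ‖∑ n ∈ Finset.Ioc (2 ^ j * N0) (2 * (2 ^ j * N0)), c' n * (n : ℂ) ^ (-ρ)‖
          < 1 / (C₁ * Real.log T) := by
      intro j hj
      by_contra hge
      exact hcon j hj (Finset.mem_filter.mpr ⟨hρ, not_lt.mp hge⟩)
    have hJne : (Finset.range J).Nonempty := by
      rw [Finset.nonempty_range_iff]
      omega
    have h1 : ‖∑ j ∈ Finset.range J, ∑ n ∈ Finset.Ioc (2 ^ j * N0) (2 * (2 ^ j * N0)),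
        c' n * (n : ℂ) ^ (-ρ)‖ < ∑ j ∈ Finset.range J, 1 / (C₁ * Real.log T) :=
      lt_of_le_of_lt (norm_sum_le _ _) (Finset.sum_lt_sum_of_nonempty hJne hall)
    rw [Finset.sum_const, Finset.card_range, nsmul_eq_mul] at h1
    have h24 : (24 : ℝ) ≤ C₁ := le_max_right _ _
    have h2 : (J : ℝ) * (1 / (C₁ * Real.log T)) ≤ 1 / 8 := by
      rw [mul_one_div, div_le_iff₀ (by positivity)]
      nlinarith
    linarith
  set R : ℝ := T ^ (wA σ) with hR
  have hR0 : 0 ≤ R := by positivity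
  have hWb : ∀ j ∈ Finset.range J, ((W j).card : ℝ) ≤ C₃ * T ^ (ε / 2 + 4 * δ) * R := by
    intro j hj
    have hsubZ : W j ⊆ Z := (Finset.filter_subset _ _).trans (Finset.filter_subset _ _)
    by_cases hjN : ((2 ^ j * N0 : ℕ) : ℝ) ≤ T ^ (1 / 2 + δ)
    · have hlow : T ^ δ / 2 ≤ ((2 ^ j * N0 : ℕ) : ℝ) := by
        refine hN0low.trans ?_
        exact_mod_cast Nat.le_mul_of_pos_left N0 (by positivity)
      have h1 := hone T hT3 σ (by linarith) hσ1 c' hc'b (2 ^ j * N0) hlow hjN (W j)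
        (fun ρ hρ => hZ ρ (hsubZ hρ)) (fun ρ hρ => (Finset.mem_filter.mp hρ).2)
      refine h1.trans ?_
      have h2 : T ^ (wA σ + ε / 2 + 4 * δ) = T ^ (ε / 2 + 4 * δ) * R := by
        rw [hR, ← Real.rpow_add hT0]
        congr 1
        ring
      rw [h2, ← mul_assoc]
    · have hempty : W j = ∅ := by
        rw [Finset.eq_empty_iff_forall_notMem]
        intro ρ hρ
        have h1 := (Finset.mem_filter.mp hρ).2
        have h2 : ∑ n ∈ Finset.Ioc (2 ^ j * N0) (2 * (2 ^ j * N0)), c' n * (n : ℂ) ^ (-ρ) = 0 := by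
          refine Finset.sum_eq_zero fun n hn => ?_
          have hn1 : 2 ^ j * N0 < n := (Finset.mem_Ioc.mp hn).1
          have hn2 : ¬ n ≤ Ne := by
            intro hle
            apply hjN
            have h5 : ((2 ^ j * N0 : ℕ) : ℝ) ≤ (Ne : ℝ) := by exact_mod_cast (hn1.le.trans hle)
            exact h5.trans hNeT
          simp [hc', hn2]
        rw [h2, norm_zero] at h1
        have h3 : 0 < 1 / (C₁ * Real.log T) := by positivity
        linarith
      rw [hempty, Finset.card_empty, Nat.cast_zero]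
      positivity
  -- the first class
  have hZ1b : (Z1.card : ℝ) ≤ L * C₃ * T ^ ε * R := by
    have h1 : (Z1.card : ℝ) ≤ J * (C₃ * T ^ (ε / 2 + 4 * δ) * R) := by
      have h2 : Z1.card ≤ ∑ j ∈ Finset.range J, (W j).card :=
        (Finset.card_le_card hZ1sub).trans Finset.card_biUnion_le
      calc (Z1.card : ℝ) ≤ ((∑ j ∈ Finset.range J, (W j).card : ℕ) : ℝ) := by exact_mod_cast h2
        _ = ∑ j ∈ Finset.range J, ((W j).card : ℝ) := by push_cast; rfl
        _ ≤ ∑ j ∈ Finset.range J, C₃ * T ^ (ε / 2 + 4 * δ) * R := Finset.sum_le_sum hWb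
        _ = J * (C₃ * T ^ (ε / 2 + 4 * δ) * R) := by
            rw [Finset.sum_const, Finset.card_range, nsmul_eq_mul]
    have hJL : (J : ℝ) ≤ L * T ^ (ε / 8) := by
      have h3 : Real.log T ≤ T ^ (ε / 8) / (ε / 8) := Real.log_le_rpow_div hT0.le (by linarith)
      have e3 : T ^ (ε / 8) / (ε / 8) = 8 / ε * T ^ (ε / 8) := by field_simp
      rw [e3] at h3
      rw [hL]
      linarith
    have h4 : T ^ (ε / 8) * T ^ (ε / 2 + 4 * δ) ≤ T ^ ε := by
      rw [← Real.rpow_add hT0]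
      exact Real.rpow_le_rpow_of_exponent_le hTone (by linarith)
    calc (Z1.card : ℝ) ≤ J * (C₃ * T ^ (ε / 2 + 4 * δ) * R) := h1
      _ ≤ (L * T ^ (ε / 8)) * (C₃ * T ^ (ε / 2 + 4 * δ) * R) :=
          mul_le_mul_of_nonneg_right hJL (by positivity)
      _ = L * C₃ * R * (T ^ (ε / 8) * T ^ (ε / 2 + 4 * δ)) := by ring
      _ ≤ L * C₃ * R * T ^ ε := mul_le_mul_of_nonneg_left h4 (by positivity)
      _ = L * C₃ * T ^ ε * R := by ring
  -- the second class
  have hZ2b : (Z2.card : ℝ) ≤ (8 * C₀) ^ 4 * C₂ * T ^ ε * R := by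
    have hzer : Zer (1 / 2) T Z2 := by
      intro ρ hρ
      obtain ⟨hz, hre, him1, him2⟩ := hZ ρ (Finset.filter_subset _ _ hρ)
      exact ⟨hz, by linarith, him1, him2⟩
    have h1 := CR_two C₀ C₂ δ η (ε / 16) T σ T hC₀ hC₂ hTone hσ1' le_rfl Z2
      (fun ρ hρ => (hZ ρ (Finset.filter_subset _ _ hρ)).2.1)
      (fun ρ hρ => (Finset.mem_filter.mp hρ).2) (htwo T hT2 Z2 hzer)
    have h2 : T ^ (4 * (ε / 16) + 16 * δ + 8 * η) ≤ (T ^ ε) ^ 4 := by
      rw [← Real.rpow_natCast (T ^ ε) 4, ← Real.rpow_mul hT0.le]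
      refine Real.rpow_le_rpow_of_exponent_le hTone ?_
      push_cast
      linarith
    have h3 : T ^ (8 * (1 - σ)) ≤ R ^ 4 := by
      rw [hR, ← Real.rpow_natCast (T ^ (wA σ)) 4, ← Real.rpow_mul hT0.le]
      refine Real.rpow_le_rpow_of_exponent_le hTone ?_
      push_cast
      linarith
    refine le_of_pow_le_pow_left₀ (n := 4) (by norm_num) (by positivity) (h1.trans ?_)
    calc ((8 * C₀) ^ 4 * C₂) ^ 4 * T ^ (4 * (ε / 16) + 16 * δ + 8 * η) * T ^ (8 * (1 - σ))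
        ≤ ((8 * C₀) ^ 4 * C₂) ^ 4 * (T ^ ε) ^ 4 * R ^ 4 :=
          mul_le_mul (mul_le_mul_of_nonneg_left h2 (by positivity)) h3 (by positivity)
            (by positivity)
      _ = ((8 * C₀) ^ 4 * C₂ * T ^ ε * R) ^ 4 := by ring
  have hfin : T ^ (wA σ + ε) = T ^ ε * R := by
    rw [hR, ← Real.rpow_add hT0]
    congr 1
    ring
  rw [hfin, ← mul_assoc]
  calc (Z.card : ℝ) = (Z2.card : ℝ) + Z1.card := hcard
    _ ≤ (8 * C₀) ^ 4 * C₂ * T ^ ε * R + L * C₃ * T ^ ε * R := by linarith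
    _ = (L * C₃ + (8 * C₀) ^ 4 * C₂) * T ^ ε * R := by ring

end Pool.Agent.NF
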