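import Pool.Agent.helper4.NF.Defs
import Pool.Agent.helper90.ZD.SpecB
import Pool.Agent.helper86.ZD.SpecC

/-!
# Project nf (MP_4467b5_nt), part C: from large values to the zero density theorem

Final theorem: for every `ε > 0` there is `C` with `N(σ, T) ≤ C T^(A(σ) (1 - σ) + ε)` for all
`T ≥ 1` and all `1/2 ≤ σ ≤ 1`, where `A(σ) = 3/(2 - σ)` (`σ < 2/3`), `9/4` (`2/3 ≤ σ < 5/7`),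
`7/(1 + 3σ)` (`5/7 ≤ σ ≤ 5/6`), `2` (`σ > 5/6`).

Module `XX` proves `theorem XX (h1 : AA_stmt) (h2 : BB_stmt) … : XX_stmt` in the file
`Pool/Agent/<seat>/NF/XX.lean`, namespace `Pool.Agent.NF`, `import Pool.Agent.helper86.NF.SpecC`
plus the library files named in the docstring, and the `open` line below. Hypotheses: the statements
named under `uses`. Auxiliary lemmas are prefixed `XX_`. No `sorry`, no double quotes.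

Library: everything of project zd: (all proved). `Sep`, `DP`, `DG`, `QW`, `q3`, `Zer`, `mult`, … as
in `Pool/Agent/helper86/ZD/SpecC.lean` and `Pool/Agent/helper90/ZD/SpecB.lean`.

Inputs: `LVD_stmt` (part B of this project, helper6's large values theorem (D), the statement is in
`Pool/Agent/helper4/NF/Defs.lean`), `LWF_stmt` (project
lw:, `FIN_stmt` of `Pool/Agent/helper16/LW/Spec.lean`, same formula), and of zd:: `MVK_stmt`,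
`BA_stmt`, `BQF_stmt`, `BE2_stmt`, `BS0_stmt`, `CSEP_stmt`; `TAY_stmt`, `DET_stmt`, `TWO_stmt`,
`COR_stmt` (`Pool.Agent.DH`). All of these except the first two are proved.
-/

set_option autoImplicit false

open Complex MeasureTheory

namespace Pool.Agent.NF

open Pool.Agent.helper84.DM Pool.Agent.helper78.ED Pool.Agent.DH Pool.Agent.ZD

/-- The exponent function. -/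
noncomputable def AA (s : ℝ) : ℝ :=
  if s < 2 / 3 then 3 / (2 - s) else if s < 5 / 7 then 9 / 4 else
    if s ≤ 5 / 6 then 7 / (1 + 3 * s) else 2

/-- `w(σ) = A(σ) (1 - σ)`. -/
noncomputable def wA (s : ℝ) : ℝ := AA s * (1 - s)

/-! ## Interface -/

/-- **LWF** (final statement of project lw:; the same formula as `Pool.Agent.LW.FIN_stmt`). -/
def LWF_stmt : Prop := ∀ ε : ℝ, 0 < ε → ∃ C : ℝ, 0 < C ∧ ∀ (T T₀ : ℝ) (N : ℕ) (a : ℕ → ℂ) (V : ℝ)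
  (W : Finset ℝ), 1 ≤ T → 1 ≤ N → (N : ℝ) ≤ T → 0 < V → (∀ n ∈ Finset.Ioc N (2 * N), ‖a n‖ ≤ 1) →
  (∀ t ∈ W, T₀ ≤ t ∧ t ≤ T₀ + T) → (∀ t ∈ W, ∀ s ∈ W, t ≠ s → 1 ≤ |t - s|) →
  (∀ t ∈ W, V ≤ ‖∑ n ∈ Finset.Ioc N (2 * N), a n * (n : ℂ) ^ (-((t : ℂ) * Complex.I))‖) →
  (W.card : ℝ) ≤ C * T ^ ε * ((N : ℝ) ^ 2 / V ^ 2 + (T ^ (1 / 2 : ℝ) * (N : ℝ) ^ 3 +
    T ^ (6 / 7 : ℝ) * (N : ℝ) ^ (18 / 7 : ℝ) + T * (N : ℝ) ^ 2) / V ^ 4)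

/-- **NFT** (final statement of this project). -/
def NFT_stmt : Prop := ∀ ε : ℝ, 0 < ε → ∃ C : ℝ, 0 < C ∧ ∀ T σ : ℝ, 1 ≤ T →
  1 / 2 ≤ σ → σ ≤ 1 → ∀ Z : Finset ℂ,
  (∀ ρ ∈ Z, riemannZeta ρ = 0 ∧ σ ≤ ρ.re ∧ 0 < ρ.im ∧ ρ.im ≤ T) →
    ∑ ρ ∈ Z, (mult ρ : ℝ) ≤ C * T ^ (wA σ + ε)

/-! ## C1: real numbers -/

/-- **NAA** (short/medium). uses: nothing. Values of `wA`.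
Proof. `unfold wA AA`, `split_ifs`. (4) `3/(2-s) ≥ 2` iff `2s ≥ 1`; `7/(1+3s) ≥ 2` iff `s ≤ 5/6`.
(5) `wA ≤ 1`: `3(1-s) ≤ 2-s` iff `2s ≥ 1`; `9/4 (1-s) ≤ 3/4`; `7(1-s) ≤ 1+3s` iff `10 s ≥ 6`;
(6) `1 - 3(1-s)/(2-s) = (2s-1)/(2-s) ≤ 2s - 1`; at `s = 2/3`: `3/4 + 1/3 ≥ 1`.
(7) `7(1-s)/(1+3s) = 28/3/(1+3s) - 7/3`, so the difference is
`28/3 · 3 (s-3/4)/((13/4)(1+3s)) ≤ 28 (s-3/4)/(13/4)² ≤ 3 (s-3/4)`. -/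
def NAA_stmt : Prop :=
  (∀ s : ℝ, 1 / 2 ≤ s → s < 2 / 3 → wA s = 3 * (1 - s) / (2 - s)) ∧
  (∀ s : ℝ, 2 / 3 ≤ s → s < 5 / 7 → wA s = 9 / 4 * (1 - s)) ∧
  (∀ s : ℝ, 5 / 7 ≤ s → s ≤ 5 / 6 → wA s = 7 * (1 - s) / (1 + 3 * s)) ∧
  (∀ s : ℝ, 1 / 2 ≤ s → s ≤ 1 → 2 * (1 - s) ≤ wA s) ∧
  (∀ s : ℝ, 1 / 2 ≤ s → s ≤ 1 → 0 ≤ wA s ∧ wA s ≤ 1) ∧
  (∀ s : ℝ, 1 / 2 ≤ s → s ≤ 2 / 3 → 1 ≤ wA s + 2 * (s - 1 / 2)) ∧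
  (∀ s : ℝ, 3 / 4 ≤ s → s ≤ 5 / 6 → wA (3 / 4) ≤ wA s + 3 * (s - 3 / 4))

/-- **NPW** (short/medium). uses: nothing. Choice of the power (compare `helper97/ZD/CPOW.lean`).
Proof. `T₀^δ ≥ 16`, so `N ≥ T^δ/2 ≥ T^(δ/2) ≥ 4`. Let `k` be the largest natural number with
`N^k ≤ T^β` (for instance `k = ⌊β log T / log N⌋₊`); `N^k₀ ≤ T^β` gives `k₀ ≤ k`, and
`k δ/2 ≤ β ≤ 9/8` gives `k ≤ 3/δ`. `T^β < N^(k+1)`, so `T^(β k/(k+1)) ≤ N^k` and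
`k₀/(k₀+1) ≤ k/(k+1)`. -/
def NPW_stmt : Prop := ∀ δ : ℝ, 0 < δ → δ ≤ 1 / 4 → ∃ T₀ : ℝ, ∀ T : ℝ, T₀ ≤ T →
  ∀ (N k₀ : ℕ) (β : ℝ), 1 ≤ k₀ → 1 ≤ β → β ≤ 9 / 8 → T ^ δ / 2 ≤ (N : ℝ) →
  (N : ℝ) ≤ T ^ (β / k₀) → ∃ k : ℕ, k₀ ≤ k ∧ (k : ℝ) ≤ 3 / δ ∧
    T ^ (β * (k₀ / (k₀ + 1))) ≤ (N : ℝ) ^ k ∧ (N : ℝ) ^ k ≤ T ^ β

/-- **NMV** (short). uses: nothing.
Proof. `T ≤ M`: `(T + M) M M^(-2σ) ≤ 2 M^(2-2σ) ≤ 2 T^(β(2-2σ)) ≤ 2 T^w`. `M ≤ T`: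
`(T + M) M M^(-2σ) ≤ 2 T M / M^(2σ) = 2 T / M^(2σ-1) ≤ 2 T / T^(1-w) = 2 T^w`. -/
def NMV_stmt : Prop := ∀ T M σ w β : ℝ, 1 ≤ T → 0 < M → 1 / 2 ≤ σ → σ ≤ 1 → M ≤ T ^ β →
  β * (2 - 2 * σ) ≤ w → T ^ (1 - w) ≤ M ^ (2 * σ - 1) →
    (T + M) * M * M ^ (-(2 * σ)) ≤ 2 * T ^ w

/-- **NLW** (medium, real numbers). uses: nothing. The exponents of lw:.
Proof. `M = T^b`, `w = 7(1-σ)/(1+3σ)`, `1 - w = (10σ-6)/(1+3σ)`; `39/50 ≤ b` and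
`b (2σ-1) ≤ 1 - w`, so `b ≤ α := (10σ-6)/((1+3σ)(2σ-1)) ≤ 12/13` (for `T = 1` everything is `≤ 4`,
`M` = 1; treat `T = 1` separately or use `T > 1`).
Each of the four terms is `≤ T^w`: `b (2-2σ) ≤ 2 - 2σ ≤ w`; `1/2 + b (3-4σ) ≤ 1/2 + α (3-4σ) ≤ w`
because `(13-17σ)(2σ-1) - 2 (3-4σ)(10σ-6) = 46σ² - 65σ + 23 > 0` (discriminant `-7`);
`6/7 + b (18/7-4σ)`: the coefficient is `≤ 0`, at `b = 39/50`: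
`w - 6/7 - (39/50)(18/7 - 4σ) ≥ 0` on `[5/7, 3/4]` (times `1+3σ` it is quadratic in `σ`);
`1 + b (2-4σ) ≤ 1 + (39/50)(2-4σ) ≤ w`. -/
def NLW_stmt : Prop := ∀ T M σ : ℝ, 1 ≤ T → 5 / 7 ≤ σ → σ ≤ 3 / 4 → T ^ (39 / 50 : ℝ) ≤ M →
  M ^ (2 * σ - 1) ≤ T ^ (1 - 7 * (1 - σ) / (1 + 3 * σ)) →
  M ^ (2 : ℕ) * M ^ (-(2 * σ)) + (T ^ (1 / 2 : ℝ) * M ^ (3 : ℕ) + T ^ (6 / 7 : ℝ) * M ^ (18 / 7 : ℝ)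
    + T * M ^ (2 : ℕ)) * M ^ (-(4 * σ)) ≤ 4 * T ^ (7 * (1 - σ) / (1 + 3 * σ))

/-- **NLD** (short/medium, real numbers). uses: nothing. The exponents of (D).
Proof. `N ≥ T^(3/8)` and `4 - 6σ ≤ 0`, `4 - 7σ ≤ 0`: `T^(3/4) N^(4-6σ) ≤ T^(3/4 + 3/8 (4-6σ)) =
T^(9/4 (1-σ))`; `T N^(4-7σ) ≤ T^(5/2 - 21σ/8)` and `5/2 - 21σ/8 ≤ 9/4 (1-σ)` iff `σ ≥ 2/3`;
`3 - 4σ ≥ 0`, `N ≤ T^(1/2)`: `T^(1/2) N^(3-4σ) ≤ T^(2-2σ)`. -/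
def NLD_stmt : Prop := ∀ T N σ : ℝ, 1 ≤ T → 2 / 3 ≤ σ → σ ≤ 3 / 4 → T ^ (3 / 8 : ℝ) ≤ N →
  N ≤ T ^ (1 / 2 : ℝ) →
  T ^ (3 / 4 : ℝ) * N ^ (4 : ℕ) * N ^ (-(6 * σ)) + T * N ^ (4 : ℕ) * N ^ (-(7 * σ)) +
    T ^ (1 / 2 : ℝ) * N ^ (3 : ℕ) * N ^ (-(4 * σ)) ≤ 3 * T ^ (9 / 4 * (1 - σ))

/-- **NBE** (medium/long, real numbers). uses: nothing. The exponents of zd: (A) + (Q) with the new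
`w` (compare `Pool/Agent/helper81/ZD/BE1.lean`).
Proof. `l = 2 + 3b - 3w/2 - 6bs ≥ 0` (it is `≥ 0.02`; decreasing in `b`, take `b = 39/50`); `w ≤ 2/3`,
`sg w = 3w/2 + 1/3`. All the inequalities are linear in `b` for fixed `s`; put
`w = 7(1-s)/(1+3s)`, multiply by `1+3s > 0`: at the two end points `b = 7/(3(1+3s))` (multiply by
`3(1+3s)` again) and `b = 39/50` they are polynomial inequalities in `s ∈ [5/7, 3/4]`. The fourth is an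
equality; the fifth is `3w ≥ 7/3 - b(12s-8)`, an equality at `b = 7/(3(1+3s))`; the seventh has the
minimum `0.0022` at `s = 5/7`, `b = 39/50`; all others have room. -/
def NBE_stmt : Prop := ∀ s b w : ℝ, 5 / 7 ≤ s → s ≤ 3 / 4 → w = 7 * (1 - s) / (1 + 3 * s) →
  7 / (3 * (1 + 3 * s)) ≤ b → b ≤ 39 / 50 → ∃ l : ℝ, EXI s b w l

/-! ## C2: class one, from the large values theorems -/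

/-- **NVM** (medium). uses: MVK_stmt. Mean values.
Proof. Copy of `Pool/Agent/helper78/ZD/CMA.lean` (lemmas `CMA_alg`, `CMA_log` can be imported):
`κ = min 1 (ε/(8K))`, MVK with `ε/4` for each `k ≤ K` (sum of the constants), `V = N^σ/(4 C₁ log T)`,
`A = C₁ T^κ`; `(C₁ T^κ)^(2k) (4 C₁ log T)^(2k) ≤ E T^(ε/2)`. -/
def NVM_stmt : Prop := ∀ (ε : ℝ) (K : ℕ), 0 < ε → 1 ≤ K → ∃ κ : ℝ, 0 < κ ∧ κ ≤ 1 ∧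
  ∀ C₁ : ℝ, 0 < C₁ → ∃ C T₀ : ℝ, 0 < C ∧ ∀ T : ℝ, T₀ ≤ T → ∀ (σ : ℝ) (N k : ℕ), 1 ≤ N →
  (N : ℝ) ≤ T → 1 ≤ k → k ≤ K → ∀ a : ℕ → ℂ, (∀ n ∈ Finset.Ioc N (2 * N), ‖a n‖ ≤ C₁ * T ^ κ) →
  ∀ W : Finset ℝ, Sep 0 T W → (∀ t ∈ W, (N : ℝ) ^ σ / (4 * C₁ * Real.log T) ≤ ‖DP N a t‖) →
    (W.card : ℝ) ≤ C * T ^ ε * ((T + (N : ℝ) ^ k) * (N : ℝ) ^ k * ((N : ℝ) ^ k) ^ (-(2 * σ)))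

/-- **LWK** (medium/long). uses: LWF_stmt; library: `pow_poly`, `divisor_bound`. lw: for powers.
Proof. `pow_poly`: `(DP N a u)^k = ∑ n ∈ Ioc (N^k) ((2N)^k), b n n^(-iu)`, `‖b n‖ ≤ A^k d(n)^k ≤ B`
with `B = C₂ A^k T^(ε/16)`, `C₂ = C₂(ε, k)` (`n ≤ T`). `Ioc (N^k) ((2N)^k)` is the disjoint union of
`Ioc (2^j N^k) (2^(j+1) N^k)`, `j < k`; so each `t ∈ W` is in some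
`W_j = {t ∈ W : V^k/k ≤ ‖∑ n ∈ Ioc (2^j N^k) (2^(j+1) N^k), b n n^(-it)‖}`. Apply LWF (with `ε/2`,
`T₀ := T`; `2^j N^k ≤ (2N)^k ≤ T`) to `b n / B` and `V^k/(k B)`: with `M = N^k`, `M_j = 2^j M ≤ 2^k M`:
each `M_j^p ≤ 2^(3k) M^p` for `p ≤ 3`. Sum over `j < k`. -/
def LWK_stmt : Prop := ∀ (ε : ℝ) (k : ℕ), 0 < ε → 1 ≤ k → ∃ C : ℝ, 0 < C ∧
  ∀ T : ℝ, 1 ≤ T → ∀ W : Finset ℝ, Sep 0 T W → ∀ (N : ℕ) (a : ℕ → ℂ) (A V : ℝ), 1 ≤ N →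
  (2 * (N : ℝ)) ^ k ≤ T → 0 < A → 0 < V → (∀ n ∈ Finset.Ioc N (2 * N), ‖a n‖ ≤ A) →
  (∀ t ∈ W, V ≤ ‖DP N a t‖) →
  (W.card : ℝ) ≤ C * T ^ ε * (A ^ (2 * k) * ((N : ℝ) ^ k) ^ 2 / V ^ (2 * k) +
    A ^ (4 * k) * (T ^ (1 / 2 : ℝ) * ((N : ℝ) ^ k) ^ 3 +
      T ^ (6 / 7 : ℝ) * ((N : ℝ) ^ k) ^ (18 / 7 : ℝ) + T * ((N : ℝ) ^ k) ^ 2) / V ^ (4 * k))

/-- **NVW** (medium). uses: LWK_stmt. lw: for class one.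
Proof. As NVM with LWK instead of MVK: `κ = min 1 (ε/(16K))`, `V = N^σ/(4 C₁ log T)`, `A = C₁ T^κ`,
`M = N^k`: `A^(2k)/V^(2k) ≤ E T^(ε/4) M^(-2σ)`, `A^(4k)/V^(4k) ≤ E² T^(ε/2) M^(-4σ)`. (`CMA_log` with
`2K` for the fourth power.) -/
def NVW_stmt : Prop := ∀ (ε : ℝ) (K : ℕ), 0 < ε → 1 ≤ K → ∃ κ : ℝ, 0 < κ ∧ κ ≤ 1 ∧
  ∀ C₁ : ℝ, 0 < C₁ → ∃ C T₀ : ℝ, 0 < C ∧ ∀ T : ℝ, T₀ ≤ T → ∀ (σ : ℝ) (N k : ℕ), 1 ≤ N →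
  (2 * (N : ℝ)) ^ k ≤ T → 1 ≤ k → k ≤ K → ∀ a : ℕ → ℂ,
  (∀ n ∈ Finset.Ioc N (2 * N), ‖a n‖ ≤ C₁ * T ^ κ) →
  ∀ W : Finset ℝ, Sep 0 T W → (∀ t ∈ W, (N : ℝ) ^ σ / (4 * C₁ * Real.log T) ≤ ‖DP N a t‖) →
    (W.card : ℝ) ≤ C * T ^ ε * (((N : ℝ) ^ k) ^ (2 : ℕ) * ((N : ℝ) ^ k) ^ (-(2 * σ)) +
      (T ^ (1 / 2 : ℝ) * ((N : ℝ) ^ k) ^ (3 : ℕ) + T ^ (6 / 7 : ℝ) * ((N : ℝ) ^ k) ^ (18 / 7 : ℝ)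
        + T * ((N : ℝ) ^ k) ^ (2 : ℕ)) * ((N : ℝ) ^ k) ^ (-(4 * σ)))

/-- **NVD** (medium). uses: LVD_stmt. (D) for class one.
Proof. `κ = min 1 (ε/32)`; LVD with `ε/2` for the coefficients `a n/(C₁ T^κ)` and
`V = N^σ/(4 C₁² T^κ log T)`; `N^(1/2) ≤ V` because `N^(σ-1/2) ≥ T^(1/16) ≥ 4 C₁² T^κ log T` for
`T ≥ T₀` (take `κ ≤ 1/64` too). `(4 C₁² T^κ log T)^7 ≤ C T^(ε/2)` and, since this number is `≥ 1`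
for `T ≥ T₀`, also its fourth and sixth power. -/
def NVD_stmt : Prop := ∀ ε : ℝ, 0 < ε → ∃ δ₀ : ℝ, 0 < δ₀ ∧ ∀ δ : ℝ, 0 < δ → δ ≤ δ₀ →
  ∃ κ : ℝ, 0 < κ ∧ κ ≤ 1 ∧ ∀ C₁ : ℝ, 0 < C₁ → ∃ C T₀ : ℝ, 0 < C ∧ ∀ T : ℝ, T₀ ≤ T → ∀ σ : ℝ,
  2 / 3 ≤ σ → σ ≤ 3 / 4 → ∀ W : Finset ℝ, Sep δ T W → ∀ (N : ℕ) (a : ℕ → ℂ),
  T ^ (3 / 8 : ℝ) ≤ (N : ℝ) → (N : ℝ) ≤ T ^ (1 / 2 : ℝ) →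
  (∀ n ∈ Finset.Ioc N (2 * N), ‖a n‖ ≤ C₁ * T ^ κ) →
  (∀ t ∈ W, (N : ℝ) ^ σ / (4 * C₁ * Real.log T) ≤ ‖DP N a t‖) →
  (W.card : ℝ) ≤ C * T ^ ε * (T ^ (3 / 4 : ℝ) * (N : ℝ) ^ (4 : ℕ) * (N : ℝ) ^ (-(6 * σ)) +
    T * (N : ℝ) ^ (4 : ℕ) * (N : ℝ) ^ (-(7 * σ)) +
    T ^ (1 / 2 : ℝ) * (N : ℝ) ^ (3 : ℕ) * (N : ℝ) ^ (-(4 * σ)))

/-- **LVZ** (LONG). uses: BA_stmt, BQF_stmt, NBE_stmt, BE2_stmt, BS0_stmt. The large values theorem of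
zd: with the new exponent.
Proof. Copy of `Pool/Agent/helper61/ZD/LVN.lean` (import it for `LVN_V`, `LVN_sq`, `LVN_KQ`, `LVN_U`,
`LVN_q3`), `w = 7(1-σ)/(1+3σ)`, `b ∈ [7/(3(1+3σ)), 39/50]` (`N₀ ≥ T^(7/(6(1+3σ)))`, `N₀ ≤ T^(39/100)`),
`b ≥ 28/39 > 2/3 · 1.01`; BE1 is replaced by NBE. -/
def LVZ_stmt : Prop := ∀ ε : ℝ, 0 < ε → ∃ δ₀ : ℝ, 0 < δ₀ ∧ ∀ δ : ℝ, 0 < δ → δ ≤ δ₀ →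
  ∃ κ : ℝ, 0 < κ ∧ κ ≤ 1 ∧ ∀ C₁ : ℝ, 0 < C₁ → ∃ C T₀ : ℝ, 0 < C ∧ ∀ T : ℝ, T₀ ≤ T → ∀ σ : ℝ,
  5 / 7 ≤ σ → σ ≤ 3 / 4 → ∀ W : Finset ℝ, Sep δ T W → ∀ (N : ℕ) (a : ℕ → ℂ),
  T ^ (7 / (6 * (1 + 3 * σ))) ≤ (N : ℝ) → (N : ℝ) ≤ T ^ (39 / 100 : ℝ) →
  (∀ n ∈ Finset.Ioc N (2 * N), ‖a n‖ ≤ C₁ * T ^ κ) →
  (∀ t ∈ W, (N : ℝ) ^ σ / (4 * C₁ * Real.log T) ≤ ‖DP N a t‖) →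
  (W.card : ℝ) ≤ C * T ^ (7 * (1 - σ) / (1 + 3 * σ) + ε)

/-! ## C3: class one in the three zones (`κ` = the minimum of the `κ` used) -/

/-- **CZH** (short/medium). uses: NVM_stmt, NMV_stmt, NAA_stmt. `T^(1/2) ≤ N ≤ T^(1/2+δ)`, all `σ`.
Proof. NVM with `k = 2 = K`, `M = N²`, `T ≤ M ≤ T^(1+2δ)`; NMV with `β = 1 + 2δ`,
`w = wA σ + 4δ` (`(1+2δ)(2-2σ) ≤ wA σ + 4δ`; `T^(1-w) ≤ T^(2σ-1) ≤ M^(2σ-1)` because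
`1 - w ≤ 1 - wA σ ≤ 2σ - 1`). -/
def CZH_stmt : Prop := ∀ ε : ℝ, 0 < ε → ∃ κ : ℝ, 0 < κ ∧ κ ≤ 1 ∧
  ∀ C₁ δ : ℝ, 0 < C₁ → 0 < δ → δ ≤ 1 / 4 → ∃ C T₀ : ℝ, 0 < C ∧ ∀ T : ℝ, T₀ ≤ T → ∀ σ : ℝ,
  1 / 2 ≤ σ → σ ≤ 3 / 4 → ∀ N : ℕ, T ^ (1 / 2 : ℝ) ≤ (N : ℝ) → (N : ℝ) ≤ T ^ (1 / 2 + δ) →
  ∀ a : ℕ → ℂ, (∀ n ∈ Finset.Ioc N (2 * N), ‖a n‖ ≤ C₁ * T ^ κ) → ∀ W : Finset ℝ, Sep 0 T W →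
  (∀ t ∈ W, (N : ℝ) ^ σ / (4 * C₁ * Real.log T) ≤ ‖DP N a t‖) →
    (W.card : ℝ) ≤ C * T ^ (wA σ + ε + 4 * δ)

/-- **CZ1** (medium). uses: NPW_stmt, NVM_stmt, NMV_stmt, NAA_stmt. `σ < 2/3`.
Proof. `β = 3/(2(2-σ)) ∈ [1, 9/8]`. `N ≤ T^(1/2) ≤ T^(β/2)`: NPW with `k₀ = 2`: `k`, `M = N^k`,
`T^(1/(2-σ)) ≤ M ≤ T^β`. NVM with `K = ⌊3/δ⌋₊ (≥ 1)`. NMV with `w = 3(1-σ)/(2-σ) = β (2-2σ)`;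
`1 - w = (2σ-1)/(2-σ)`. -/
def CZ1_stmt : Prop := ∀ ε δ : ℝ, 0 < ε → 0 < δ → δ ≤ 1 / 4 → ∃ κ : ℝ, 0 < κ ∧ κ ≤ 1 ∧
  ∀ C₁ : ℝ, 0 < C₁ → ∃ C T₀ : ℝ, 0 < C ∧ ∀ T : ℝ, T₀ ≤ T → ∀ σ : ℝ, 1 / 2 ≤ σ → σ < 2 / 3 →
  ∀ N : ℕ, T ^ δ / 2 ≤ (N : ℝ) → (N : ℝ) ≤ T ^ (1 / 2 : ℝ) → ∀ a : ℕ → ℂ,
  (∀ n ∈ Finset.Ioc N (2 * N), ‖a n‖ ≤ C₁ * T ^ κ) → ∀ W : Finset ℝ, Sep 0 T W →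
  (∀ t ∈ W, (N : ℝ) ^ σ / (4 * C₁ * Real.log T) ≤ ‖DP N a t‖) →
    (W.card : ℝ) ≤ C * T ^ (wA σ + ε)

/-- **CZ2** (medium). uses: NPW_stmt, NVM_stmt, NMV_stmt, NAA_stmt, NVD_stmt, NLD_stmt.
`2/3 ≤ σ < 5/7`.
Proof. `N ≤ T^(3/8)`: NPW with `β = 9/8`, `k₀ = 3`: `T^(27/32) ≤ M = N^k ≤ T^(9/8)`; NVM; NMV with
`w = 9/4 (1-σ) = β (2-2σ)`, `1 - w = (9σ-5)/4 ≤ (27/32)(2σ-1)` since `13 - 18σ ≥ 0`.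
`T^(3/8) ≤ N ≤ T^(1/2)`: NVD and NLD. `ϑ₀` = the `δ₀` of NVD. -/
def CZ2_stmt : Prop := ∀ ε : ℝ, 0 < ε → ∃ ϑ₀ : ℝ, 0 < ϑ₀ ∧ ∀ ϑ : ℝ, 0 < ϑ → ϑ ≤ ϑ₀ →
  ∀ δ : ℝ, 0 < δ → δ ≤ 1 / 4 → ∃ κ : ℝ, 0 < κ ∧ κ ≤ 1 ∧
  ∀ C₁ : ℝ, 0 < C₁ → ∃ C T₀ : ℝ, 0 < C ∧ ∀ T : ℝ, T₀ ≤ T → ∀ σ : ℝ, 2 / 3 ≤ σ → σ < 5 / 7 →
  ∀ N : ℕ, T ^ δ / 2 ≤ (N : ℝ) → (N : ℝ) ≤ T ^ (1 / 2 : ℝ) → ∀ a : ℕ → ℂ,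
  (∀ n ∈ Finset.Ioc N (2 * N), ‖a n‖ ≤ C₁ * T ^ κ) → ∀ W : Finset ℝ, Sep ϑ T W →
  (∀ t ∈ W, (N : ℝ) ^ σ / (4 * C₁ * Real.log T) ≤ ‖DP N a t‖) →
    (W.card : ℝ) ≤ C * T ^ (wA σ + ε)

/-- **CZ3** (medium/long). uses: NPW_stmt, NVM_stmt, NMV_stmt, NAA_stmt, NVW_stmt, NLW_stmt,
LVZ_stmt. `5/7 ≤ σ ≤ 3/4`.
Proof. `w = 7(1-σ)/(1+3σ)`, `β = 7/(2(1+3σ)) ∈ [14/13, 49/44]`, `w = β (2-2σ)`. If `N ≤ T^(β/3)`: NPW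
with `k₀ = 3`: `k`, `T^(3β/4) ≤ N^k ≤ T^β`, `3β/4 ≥ 21/26 ≥ 39/50`. If `T^(β/3) < N ≤ T^(39/100)`: LVZ
(`β/3 = 7/(6(1+3σ))`). If `T^(39/100) < N ≤ T^(1/2)`: `k = 2`, `T^(39/50) ≤ N^k ≤ T ≤ T^β`. In the first
and third case let `M = N^k`: if `T^(1-w) ≤ M^(2σ-1)`: NVM and NMV. Otherwise
`M^(2σ-1) ≤ T^(1-w)`, `1 - w = (10σ-6)/(1+3σ)`, so `M ≤ T^(12/13)` (`(1-w)/(2σ-1) ≤ 12/13` iff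
`13 (10σ-6) ≤ 12 (1+3σ)(2σ-1)` iff `72σ² - 142σ + 66 ≥ 0`, i.e. `2(σ - 3/4)(36σ - 44) ≥ 0`) and
`(2N)^k = 2^k M ≤ 2^(3/δ) T^(12/13) ≤ T` for `T ≥ T₀`: NVW and NLW. -/
def CZ3_stmt : Prop := ∀ ε : ℝ, 0 < ε → ∃ ϑ₀ : ℝ, 0 < ϑ₀ ∧ ∀ ϑ : ℝ, 0 < ϑ → ϑ ≤ ϑ₀ →
  ∀ δ : ℝ, 0 < δ → δ ≤ 1 / 4 → ∃ κ : ℝ, 0 < κ ∧ κ ≤ 1 ∧
  ∀ C₁ : ℝ, 0 < C₁ → ∃ C T₀ : ℝ, 0 < C ∧ ∀ T : ℝ, T₀ ≤ T → ∀ σ : ℝ, 5 / 7 ≤ σ → σ ≤ 3 / 4 →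
  ∀ N : ℕ, T ^ δ / 2 ≤ (N : ℝ) → (N : ℝ) ≤ T ^ (1 / 2 : ℝ) → ∀ a : ℕ → ℂ,
  (∀ n ∈ Finset.Ioc N (2 * N), ‖a n‖ ≤ C₁ * T ^ κ) → ∀ W : Finset ℝ, Sep ϑ T W →
  (∀ t ∈ W, (N : ℝ) ^ σ / (4 * C₁ * Real.log T) ≤ ‖DP N a t‖) →
    (W.card : ℝ) ≤ C * T ^ (wA σ + ε)

/-! ## C4: zeros (mechanical copies of zd:) -/

/-- **NONE** (short/medium). uses: CZH_stmt, CZ1_stmt, CZ2_stmt, CZ3_stmt. Copy of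
`Pool/Agent/helper62/ZD/CONE.lean`. `ϑ = min ϑ₀ (min ϑ₀' (min ε (1/2)))`. -/
def NONE_stmt : Prop := ∀ ε : ℝ, 0 < ε → ∃ ϑ : ℝ, 0 < ϑ ∧ ϑ ≤ ε ∧ ϑ ≤ 1 / 2 ∧
  ∀ δ : ℝ, 0 < δ → δ ≤ 1 / 4 → ∃ κ : ℝ, 0 < κ ∧ κ ≤ 1 ∧
  ∀ C₁ : ℝ, 0 < C₁ → ∃ C T₀ : ℝ, 0 < C ∧ ∀ T : ℝ, T₀ ≤ T → ∀ σ : ℝ, 1 / 2 ≤ σ → σ ≤ 3 / 4 →
  ∀ N : ℕ, T ^ δ / 2 ≤ (N : ℝ) → (N : ℝ) ≤ T ^ (1 / 2 + δ) → ∀ a : ℕ → ℂ,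
  (∀ n ∈ Finset.Ioc N (2 * N), ‖a n‖ ≤ C₁ * T ^ κ) → ∀ W : Finset ℝ, Sep ϑ T W →
  (∀ t ∈ W, (N : ℝ) ^ σ / (4 * C₁ * Real.log T) ≤ ‖DP N a t‖) →
    (W.card : ℝ) ≤ C * T ^ (wA σ + ε + 4 * δ)

/-- **NALL** (short). uses: NONE_stmt, CSEP_stmt. Copy of `Pool/Agent/helper62/ZD/CALL.lean`. -/
def NALL_stmt : Prop := ∀ ε δ : ℝ, 0 < ε → 0 < δ → δ ≤ 1 / 4 → ∃ κ : ℝ, 0 < κ ∧ κ ≤ 1 ∧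
  ∀ C₁ : ℝ, 0 < C₁ → ∃ C T₀ : ℝ, 0 < C ∧ ∀ T : ℝ, T₀ ≤ T → ∀ σ : ℝ, 1 / 2 ≤ σ → σ ≤ 3 / 4 →
  ∀ N : ℕ, T ^ δ / 2 ≤ (N : ℝ) → (N : ℝ) ≤ T ^ (1 / 2 + δ) → ∀ a : ℕ → ℂ,
  (∀ n ∈ Finset.Ioc N (2 * N), ‖a n‖ ≤ C₁ * T ^ κ) → ∀ Z : Finset ℂ, Zer σ T Z →
  (∀ ρ ∈ Z, (N : ℝ) ^ σ / (4 * C₁ * Real.log T) ≤ ‖DP N a ρ.im‖) →
    (Z.card : ℝ) ≤ C * T ^ (wA σ + ε + 4 * δ)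

/-- **NTAY** (short). uses: NALL_stmt, TAY_stmt. Copy of `Pool/Agent/helper63/ZD/CTAY.lean`. -/
def NTAY_stmt : Prop := ∀ ε δ : ℝ, 0 < ε → 0 < δ → δ ≤ 1 / 4 → ∃ κ : ℝ, 0 < κ ∧ κ ≤ 1 ∧
  ∀ C₁ : ℝ, 0 < C₁ → ∃ C T₀ : ℝ, 0 < C ∧ ∀ T : ℝ, T₀ ≤ T → ∀ σ : ℝ, 1 / 2 ≤ σ → σ ≤ 3 / 4 →
  ∀ c : ℕ → ℂ, (∀ n : ℕ, 1 ≤ n → (n : ℝ) ≤ T → ‖c n‖ ≤ C₁ * T ^ κ) →
  ∀ N : ℕ, T ^ δ / 2 ≤ (N : ℝ) → (N : ℝ) ≤ T ^ (1 / 2 + δ) → ∀ Z : Finset ℂ, Zer σ T Z →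
  (∀ ρ ∈ Z, 1 / (C₁ * Real.log T) ≤ ‖∑ n ∈ Finset.Ioc N (2 * N), c n * (n : ℂ) ^ (-ρ)‖) →
    (Z.card : ℝ) ≤ C * T ^ (wA σ + ε + 4 * δ)

/-- **NCOR** (medium). uses: NTAY_stmt, DET_stmt, TWO_stmt, NAA_stmt. Copy of
`Pool/Agent/helper73/ZD/CCOR.lean` with `R = T^(wA σ)`; `η ≤ ε/32` (and `ε ≤ 1` without loss of
generality), so that `1/2 + 2η ≤ 1/2 + ε/8 ≤ σ`. The second class: `T^(8(1-σ)) ≤ R^4` because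
`2(1-σ) ≤ wA σ`. -/
def NCOR_stmt : Prop := ∀ ε : ℝ, 0 < ε → ∃ C T₀ : ℝ, 0 < C ∧ ∀ T : ℝ, T₀ ≤ T →
  ∀ σ : ℝ, 1 / 2 + ε / 8 ≤ σ → σ ≤ 3 / 4 → ∀ Z : Finset ℂ, Zer σ T Z →
    (Z.card : ℝ) ≤ C * T ^ (wA σ + ε)

/-- **NSIG** (short/medium). uses: NCOR_stmt, COR_stmt, NAA_stmt; library: `global_count`. Copy of
`Pool/Agent/helper3/ZD/CSIG.lean`. We may assume `ε ≤ 1/4`. `σ ≤ 1/2 + ε/8`: `Z.card ≤ C T log T`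
and `1 ≤ wA σ + ε/4` (NAA (6)). `1/2 + ε/8 ≤ σ ≤ 3/4`: NCOR.
`3/4 < σ ≤ 3/4 + ε/9 (≤ 5/6)`: NCOR at `3/4` with `ε/2` and NAA (7): `3 ε/9 ≤ ε/2`.
`σ > 3/4 + ε/9`: COR with `s₀ = 3/4 + ε/9`, `2 (1-σ) ≤ wA σ`. -/
def NSIG_stmt : Prop := ∀ ε : ℝ, 0 < ε → ∃ C T₀ : ℝ, 0 < C ∧ ∀ T : ℝ, T₀ ≤ T →
  ∀ σ : ℝ, 1 / 2 ≤ σ → σ ≤ 1 → ∀ Z : Finset ℂ, Zer σ T Z →
    (Z.card : ℝ) ≤ C * T ^ (wA σ + ε)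

/-! **NFT** (short). uses: NSIG_stmt, NAA_stmt. Copy of `Pool/Agent/helper18/ZD/ZDT.lean`:
`theorem NFT (h : NSIG_stmt) (hA : NAA_stmt) : NFT_stmt`. -/

end Pool.Agent.NF
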